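import Pool.Agent.H695R3.AT.AC

/-!
# Large-disorder localization fails on antitrees

For fast growing antitrees the shell averages of `1 / (λ v - E)` converge to
`G(E) = 𝔼 [1 / (λ v - E)]` with summable errors, and the averages of an eigenvector over the shells
solve a Jacobi equation with effective potential `1 / G_n(E)`. When `|1 / G(E)| < 2` on an interval,
its transfer matrices are bounded, so that this energy interval lies in the spectrum while
eigenvectors are supported on finitely many shells. At arbitrarily large disorder this happens when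
the single-site distribution has an isolated atom at `0`, and also for some absolutely continuous
distributions.
-/

set_option autoImplicit false

open MeasureTheory Filter Topology

namespace Pool.Agent.Results.MP_be97d8_mp.AntitreeDisproof

open Pool.Agent.H695R3.AT

/-- The single-site distributions of the problem: probability measures supported in `[-1, 1]` with
mean `0` and variance in `(0, 1]`. -/
def IsLaw (Pv : Measure ℝ) : Prop :=
  IsProbabilityMeasure Pv ∧ Pv (Set.Icc (-1) 1)ᶜ = 0 ∧ ∫ t, t ∂Pv = 0 ∧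
    0 < ∫ t, t ^ 2 ∂Pv ∧ ∫ t, t ^ 2 ∂Pv ≤ 1

/-- The distribution of an i.i.d. potential on the antitree: the product measure. -/
noncomputable def iidLaw (s : ℕ → ℕ) (Pv : Measure ℝ) : Measure (Vtx s → ℝ) :=
  Measure.infinitePi fun _ : Vtx s => Pv

/-- The assertion of Q1: for every distribution, every antitree and every compact interval, at large
disorder the spectrum is almost surely pure point in the interval. -/
def LargeDisorderLocalization : Prop :=
  ∀ Pv : Measure ℝ, IsLaw Pv → ∀ s : ℕ → ℕ, (∀ n, 0 < s n) → ∀ a b : ℝ, a ≤ b →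
    ∃ lam₀ : ℝ, 0 < lam₀ ∧ ∀ lam : ℝ, lam₀ < lam →
      ∀ᵐ v ∂(iidLaw s Pv), ∀ H : L2 s →L[ℂ] L2 s, IsAnderson s lam v H → IsPurePointIn H a b

/-- Almost surely, the spectrum of `H_λ` is not pure point in `[a, b]`. -/
def NotPurePointAE (s : ℕ → ℕ) (Pv : Measure ℝ) (lam a b : ℝ) : Prop :=
  ∀ᵐ v ∂(iidLaw s Pv), ∃ H : L2 s →L[ℂ] L2 s,
    IsAnderson s lam v H ∧ IsSelfAdjoint H ∧ ¬ IsPurePointIn H a b

lemma supp_ae {Pv : Measure ℝ} (h : Pv (Set.Icc (-1) 1)ᶜ = 0) : ∀ᵐ t ∂Pv, |t| ≤ 1 := by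
  rw [ae_iff]
  refine measure_mono_null (fun t ht => ?_) h
  intro hc
  exact ht (abs_le.2 hc)

lemma acLaw_isLaw : IsLaw acLaw := by
  refine ⟨inferInstance, ?_, acLaw_mean, acLaw_sq_pos, acLaw_sq_le⟩
  have h := acLaw_supp
  rw [ae_iff] at h
  refine measure_mono_null (fun t ht => ?_) h
  intro hc
  exact ht (abs_le.1 hc)

/-- Isolated atoms at `0`. -/
theorem isolated_atom {Pv : Measure ℝ} (hPv : IsLaw Pv) (h0 : 0 < Pv.real {0}) {r : ℝ}
    (hr : 0 < r) (hgap : Pv {t | 0 < |t| ∧ |t| < r} = 0) {s : ℕ → ℕ} (hs : ∀ n, 16 ^ n ≤ s n)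
    {lam : ℝ} (hlam : 16 / r ≤ lam) :
    NotPurePointAE s Pv lam (Pv.real {0} / 2) (Pv.real {0}) := by
  have := hPv.1
  exact atom (supp_ae hPv.2.1) h0 hr hgap hlam hs

/-- An absolutely continuous distribution. -/
theorem abs_cont {s : ℕ → ℕ} (hs : ∀ n, 16 ^ n ≤ s n) (L : ℝ) :
    ∃ lam : ℝ, L < lam ∧ NotPurePointAE s acLaw lam 0 1 := by
  obtain ⟨k, hk⟩ := lamk_tendsto L
  refine ⟨lamk k, hk, ?_⟩
  have h1 : ((1 : ℝ) / 2) ^ (k + 1) ≤ 1 := pow_le_one₀ (by norm_num) (by norm_num)
  have h2 := cluster (s := s) acLaw_supp (lamk_pos k) (p := (1 / 2) ^ (k + 1)) (by positivity) h1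
    (acLaw_cluster k).1 (acLaw_cluster k).2 hs
  refine h2.mono fun v hv => ?_
  obtain ⟨H, e1, e2, e3⟩ := hv
  exact ⟨H, e1, e2, not_pp_mono (by positivity) h1 e3⟩

/-- **Disproof of Q1.** Large-disorder localization fails on antitrees.

If the single-site distribution has an isolated atom at `0`, of mass `p`, then on every antitree
with `s_n ≥ 16^n` and for every large `λ` the spectrum is almost surely not pure point in
`[p / 2, p]`. There is also an absolutely continuous single-site distribution such that on each of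
these antitrees, for arbitrarily large `λ`, the spectrum is almost surely not pure point in
`[0, 1]`. -/
theorem result : ¬ LargeDisorderLocalization ∧
    (∀ Pv : Measure ℝ, IsLaw Pv → 0 < Pv.real {0} →
      ∀ r : ℝ, 0 < r → Pv {t | 0 < |t| ∧ |t| < r} = 0 →
      ∀ s : ℕ → ℕ, (∀ n, 16 ^ n ≤ s n) → ∀ lam : ℝ, 16 / r ≤ lam →
        NotPurePointAE s Pv lam (Pv.real {0} / 2) (Pv.real {0})) ∧
    (∃ Pv : Measure ℝ, IsLaw Pv ∧ Pv ≪ volume ∧
      ∀ s : ℕ → ℕ, (∀ n, 16 ^ n ≤ s n) → ∀ L : ℝ, ∃ lam : ℝ, L < lam ∧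
        NotPurePointAE s Pv lam 0 1) := by
  refine ⟨fun h => ?_, fun Pv hPv h0 r hr hgap s hs lam hlam =>
    isolated_atom hPv h0 hr hgap hs hlam, acLaw, acLaw_isLaw, acLaw_ac, fun s hs L =>
    abs_cont hs L⟩
  obtain ⟨lam₀, -, h1⟩ := h acLaw acLaw_isLaw (fun n => 16 ^ n) (fun n => by positivity) 0 1
    zero_le_one
  obtain ⟨lam, hlam, h2⟩ := abs_cont (s := fun n => 16 ^ n) (fun n => le_rfl) lam₀
  have h3 := h1 lam hlam
  have : IsProbabilityMeasure (iidLaw (fun n => 16 ^ n) acLaw) := by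
    unfold iidLaw; infer_instance
  obtain ⟨v, hv1, hv2⟩ := (h3.and h2).exists
  obtain ⟨H, e1, -, e3⟩ := hv2
  exact e3 (hv1 H e1)

end Pool.Agent.Results.MP_be97d8_mp.AntitreeDisproof
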